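import Mathlib

namespace Pool.Agent.Results.MP_c9edc3_al.InnNotResiduallyFinite

section defs
variable {S : Type} [Semigroup S]

/-- `S` has an identity element. -/
def HasIdentity (S : Type) [Semigroup S] : Prop := ∃ e : S, ∀ x : S, e * x = x ∧ x * e = x

/-- Membership in `S¹`, realised inside `S` with a new identity adjoined: all elements if `S` has
no identity, the elements of `S` if it has one. -/
def InS1 (g : WithOne S) : Prop := HasIdentity S → g ≠ 1

/-- The product `g a` in `S`, for `g` in `S` or the adjoined identity. -/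
def lm (g : WithOne S) (a : S) : S := WithOne.recOneCoe a (fun g => g * a) g

/-- The product `a g` in `S`, for `g` in `S` or the adjoined identity. -/
def rm (a : S) (g : WithOne S) : S := WithOne.recOneCoe a (fun g => a * g) g

theorem coe_lm (g : WithOne S) (a : S) : ((lm g a : S) : WithOne S) = g * a := by
  refine WithOne.cases_on g ?_ ?_
  · rw [one_mul]; rfl
  · intro g; rfl

theorem coe_rm (g : WithOne S) (a : S) : ((rm a g : S) : WithOne S) = a * g := by
  refine WithOne.cases_on g ?_ ?_
  · rw [mul_one]; rfl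
  · intro g; rfl

open Classical in
/-- The partial map `φ_{g,h} : a ↦ h a g`, defined when `g h a = a g h = a`. -/
noncomputable def phiFun (g h : WithOne S) (a : S) : Option S :=
  if lm (g * h) a = a ∧ rm a (g * h) = a then some (rm (lm h a) g) else none

theorem phiFun_eq_some (g h : WithOne S) (a b : S) :
    phiFun g h a = some b ↔ (g * h) * (a : WithOne S) = a ∧ (a : WithOne S) * (g * h) = a ∧
      (b : WithOne S) = h * a * g := by
  rw [phiFun, ← coe_lm (g * h) a, ← coe_rm (g * h) a, WithOne.coe_inj, WithOne.coe_inj,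
    ← coe_lm h a, ← coe_rm g (lm h a), WithOne.coe_inj]
  constructor
  · intro h'
    split_ifs at h' with hc
    · exact ⟨hc.1, hc.2, (Option.some.inj h').symm⟩
  · rintro ⟨h1, h2, h3⟩
    rw [if_pos ⟨h1, h2⟩, h3]

theorem phiFun_symm (g h : WithOne S) (a b : S) (hab : phiFun g h a = some b) :
    phiFun h g b = some a := by
  rw [phiFun_eq_some] at hab ⊢
  obtain ⟨h1, h2, h3⟩ := hab
  rw [h3]
  refine ⟨?_, ?_, ?_⟩
  · calc h * g * (h * a * g) = h * ((g * h) * a) * g := by simp only [mul_assoc]
      _ = h * a * g := by rw [h1]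
  · calc h * a * g * (h * g) = h * (a * (g * h)) * g := by simp only [mul_assoc]
      _ = h * a * g := by rw [h2]
  · calc (a : WithOne S) = (g * h) * a := h1.symm
      _ = (g * h) * (a * (g * h)) := by rw [h2]
      _ = g * (h * a * g) * h := by simp only [mul_assoc]

/-- The monoid of partial bijections of `S`; in a product the left factor is applied first. -/
def PB (S : Type) : Type := S ≃. S

instance (S : Type) : Monoid (PB S) where
  mul f g := PEquiv.trans f g
  mul_assoc f g h := PEquiv.trans_assoc f g h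
  one := PEquiv.refl S
  one_mul f := PEquiv.refl_trans f
  mul_one f := PEquiv.trans_refl f

/-- The value of a partial bijection at a point. -/
def PB.app {S : Type} (f : PB S) (a : S) : Option S := DFunLike.coe (F := S ≃. S) f a

theorem PB.mul_app {S : Type} (f g : PB S) (a c : S) :
    (f * g).app a = some c ↔ ∃ w, f.app a = some w ∧ g.app w = some c :=
  PEquiv.trans_eq_some f g a c

theorem PB.ext' {S : Type} {f g : PB S} (h : ∀ a b, f.app a = some b ↔ g.app a = some b) :
    f = g := by
  apply PEquiv.ext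
  intro a
  apply Option.ext
  intro b
  exact h a b

/-- The partial bijection `φ_{g,h}`. -/
noncomputable def phi (g h : WithOne S) : PB S where
  toFun := phiFun g h
  invFun := phiFun h g
  inv a b := ⟨fun hab => phiFun_symm h g b a hab, fun hab => phiFun_symm g h a b hab⟩

/-- The partial inner automorphism monoid. -/
def Inn (S : Type) [Semigroup S] : Submonoid (PB S) :=
  Submonoid.closure {f | ∃ g h : WithOne S, InS1 g ∧ InS1 h ∧ f = phi g h}

/-- Residual finiteness. -/
def ResiduallyFinite (M : Type) [Semigroup M] : Prop :=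
  ∀ x y : M, x ≠ y → ∃ (F : Type) (_ : Semigroup F) (_ : Finite F) (f : M →ₙ* F), f x ≠ f y

/-- `S` is generated as a semigroup by a finite subset. -/
def FinitelyGenerated (S : Type) [Semigroup S] : Prop :=
  ∃ A : Set S, A.Finite ∧ Subsemigroup.closure A = ⊤

end defs

/-! ### The example -/

inductive T (A : Type) : Type
  | u (a : A) : T A
  | e (a : A) : T A

def T.mul {A : Type} [AddCommGroup A] : T A → T A → T A
  | T.u a, T.u b => T.u (a + b)
  | T.u a, T.e b => T.e (a + b)
  | T.e a, _ => T.e a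

instance (A : Type) [AddCommGroup A] : Semigroup (T A) where
  mul := T.mul
  mul_assoc x y z := by
    show T.mul (T.mul x y) z = T.mul x (T.mul y z)
    cases x <;> cases y <;> cases z <;> simp [T.mul, add_assoc]

def T.map {A B : Type} [AddCommGroup A] [AddCommGroup B] (f : A →+ B) : T A →ₙ* T B where
  toFun x := match x with
    | T.u a => T.u (f a)
    | T.e a => T.e (f a)
  map_mul' x y := by
    cases x <;> cases y
    · exact congrArg T.u (f.map_add _ _)
    · exact congrArg T.e (f.map_add _ _)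
    · rfl
    · rfl

instance (A : Type) [Finite A] : Finite (T A) := by
  have : Function.Injective (fun x : T A => match x with
    | T.u a => (Sum.inl a : A ⊕ A)
    | T.e a => Sum.inr a) := by
    intro x y h
    cases x <;> cases y <;> simp_all
  exact Finite.of_injective _ this

theorem zmod_sep (a b : ℤ) (h : a ≠ b) : ∃ N : ℕ, NeZero N ∧ ((a : ZMod N) ≠ (b : ZMod N)) := by
  refine ⟨(a - b).natAbs + 1, ⟨by omega⟩, ?_⟩
  intro h'
  rw [ZMod.intCast_eq_intCast_iff_dvd_sub] at h'
  have h1 := Int.natAbs_dvd_natAbs.mpr h'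
  have h2 : (b - a).natAbs ≠ 0 := by omega
  have h3 := Nat.le_of_dvd (by omega) h1
  rw [Int.natAbs_natCast] at h3
  omega

theorem rf : ResiduallyFinite (T ℤ) := by
  intro x y hxy
  cases x with
  | u a =>
    cases y with
    | u b =>
      obtain ⟨N, _, hN⟩ := zmod_sep a b (fun h => hxy (by rw [h]))
      refine ⟨T (ZMod N), inferInstance, inferInstance, T.map (Int.castAddHom (ZMod N)), ?_⟩
      intro h
      have h1 : T.u ((a : ℤ) : ZMod N) = T.u ((b : ℤ) : ZMod N) := h
      exact hN (T.u.inj h1)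
    | e b =>
      refine ⟨T (ZMod 1), inferInstance, inferInstance, T.map (Int.castAddHom (ZMod 1)), ?_⟩
      intro h
      have h1 : T.u ((a : ℤ) : ZMod 1) = T.e ((b : ℤ) : ZMod 1) := h
      cases h1
  | e a =>
    cases y with
    | u b =>
      refine ⟨T (ZMod 1), inferInstance, inferInstance, T.map (Int.castAddHom (ZMod 1)), ?_⟩
      intro h
      have h1 : T.e ((a : ℤ) : ZMod 1) = T.u ((b : ℤ) : ZMod 1) := h
      cases h1
    | e b =>
      obtain ⟨N, _, hN⟩ := zmod_sep a b (fun h => hxy (by rw [h]))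
      refine ⟨T (ZMod N), inferInstance, inferInstance, T.map (Int.castAddHom (ZMod N)), ?_⟩
      intro h
      have h1 : T.e ((a : ℤ) : ZMod N) = T.e ((b : ℤ) : ZMod N) := h
      exact hN (T.e.inj h1)

theorem fg : FinitelyGenerated (T ℤ) := by
  refine ⟨{T.u 1, T.u (-1), T.e 0}, Set.toFinite _, ?_⟩
  rw [eq_top_iff]
  intro x _
  set C := Subsemigroup.closure ({T.u 1, T.u (-1), T.e 0} : Set (T ℤ)) with hC
  have g1 : T.u 1 ∈ C := Subsemigroup.subset_closure (by simp)
  have g2 : T.u (-1) ∈ C := Subsemigroup.subset_closure (by simp)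
  have g3 : T.e 0 ∈ C := Subsemigroup.subset_closure (by simp)
  have hu : ∀ a : ℤ, T.u a ∈ C := by
    intro a
    induction a using Int.induction_on with
    | zero =>
      have : T.u (0 : ℤ) = T.u 1 * T.u (-1) := rfl
      rw [this]
      exact mul_mem g1 g2
    | succ i ih =>
      have : T.u ((i : ℤ) + 1) = T.u (i : ℤ) * T.u 1 := rfl
      rw [this]
      exact mul_mem ih g1
    | pred i ih =>
      have : T.u (-(i : ℤ) - 1) = T.u (-(i : ℤ)) * T.u (-1) := by
        show _ = T.u (-(i : ℤ) + -1)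
        congr 1
      rw [this]
      exact mul_mem ih g2
  cases x with
  | u a => exact hu a
  | e a =>
    have : T.e a = T.u a * T.e 0 := by
      show T.e a = T.e (a + 0)
      rw [add_zero]
    rw [this]
    exact mul_mem (hu a) g3

/-- The matrix units. -/
noncomputable def mu (m n : ℤ) : PB (T ℤ) := phi ((T.e m : T ℤ) : WithOne (T ℤ)) ((T.e n : T ℤ))

theorem mu_mem (m n : ℤ) : mu m n ∈ Inn (T ℤ) :=
  Submonoid.subset_closure ⟨_, _, fun _ => WithOne.coe_ne_one, fun _ => WithOne.coe_ne_one, rfl⟩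

theorem app_mu (m n : ℤ) (a b : T ℤ) :
    (mu m n).app a = some b ↔ a = T.e m ∧ b = T.e n := by
  show phiFun _ _ a = some b ↔ _
  rw [phiFun_eq_some]
  simp only [← WithOne.coe_mul, WithOne.coe_inj]
  constructor
  · rintro ⟨h1, -, h3⟩
    have h4 : T.e m = a := h1
    refine ⟨h4.symm, ?_⟩
    rw [h3]
    rfl
  · rintro ⟨rfl, rfl⟩
    exact ⟨rfl, rfl, rfl⟩

theorem mu_mul (m n k l : ℤ) (h : n = k) : mu m n * mu k l = mu m l := by
  apply PB.ext'
  intro a b
  rw [PB.mul_app, app_mu]
  constructor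
  · rintro ⟨w, hw, hb⟩
    rw [app_mu] at hw hb
    exact ⟨hw.1, hb.2⟩
  · rintro ⟨h1, h2⟩
    refine ⟨T.e n, (app_mu _ _ _ _).mpr ⟨h1, rfl⟩, (app_mu _ _ _ _).mpr ⟨by rw [h], h2⟩⟩

theorem mu_mul_ne (m n k l : ℤ) (h : n ≠ k) (a b : T ℤ) :
    (mu m n * mu k l).app a ≠ some b := by
  intro h1
  rw [PB.mul_app] at h1
  obtain ⟨w, hw, hb⟩ := h1
  rw [app_mu] at hw hb
  exact h (T.e.inj (hw.2.symm.trans hb.1))

theorem mu_mul_zero (m n k l m' n' k' l' : ℤ) (h : n ≠ k) (h' : n' ≠ k') :
    mu m n * mu k l = mu m' n' * mu k' l' := by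
  apply PB.ext'
  intro a b
  constructor
  · intro h1; exact absurd h1 (mu_mul_ne m n k l h a b)
  · intro h1; exact absurd h1 (mu_mul_ne m' n' k' l' h' a b)

theorem not_rf : ¬ ResiduallyFinite (Inn (T ℤ)) := by
  intro hrf
  let E : ℤ → ℤ → Inn (T ℤ) := fun m n => ⟨mu m n, mu_mem m n⟩
  have hne : E 0 0 ≠ E 0 0 * E 1 1 := by
    intro h
    have h1 : mu 0 0 = mu 0 0 * mu 1 1 := congrArg Subtype.val h
    have h2 : (mu 0 0).app (T.e 0) = some (T.e 0) :=
      (app_mu _ _ _ _).mpr ⟨rfl, rfl⟩
    rw [h1] at h2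
    exact mu_mul_ne 0 0 1 1 (by decide) _ _ h2
  obtain ⟨F, _, _, f, hf⟩ := hrf _ _ hne
  obtain ⟨m, n, hmn, heq⟩ := Finite.exists_ne_map_eq_of_infinite (fun n : ℤ => f (E 0 n))
  apply hf
  have h1 : E 0 0 = E 0 m * E m 0 := Subtype.ext (mu_mul 0 m m 0 rfl).symm
  have h2 : E 0 0 * E 1 1 = E 0 n * E m 0 :=
    Subtype.ext (mu_mul_zero 0 0 1 1 0 n m 0 (by decide) hmn.symm)
  have heq' : f (E 0 m) = f (E 0 n) := heq
  rw [h2, map_mul]
  conv_lhs => rw [h1, map_mul, heq']

theorem result : ∃ (S : Type) (_ : Semigroup S), FinitelyGenerated S ∧ ResiduallyFinite S ∧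
    ¬ ResiduallyFinite (Inn S) :=
  ⟨T ℤ, inferInstance, fg, rf, not_rf⟩

end Pool.Agent.Results.MP_c9edc3_al.InnNotResiduallyFinite
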